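import Pool.Agent.helper37.ND.SpecP

set_option autoImplicit false

/-!
# Row nd:AVG (MP_baa4d7_al): means of a linear character times characters
-/

namespace Pool.Agent.ND

open Pool.Agent.helper58.DC Pool.Agent.DI Pool.Agent.GR

/-- the trace of an endomorphism with `A ^ (k + 1) = A` is integral -/
theorem AVG_tr {V : Type} [AddCommGroup V] [Module ℂ V] [FiniteDimensional ℂ V] (A : Module.End ℂ V) (k : ℕ) (hk : 0 < k)
    (hA : A ^ (k + 1) = A) : IsIntegral ℤ (LinearMap.trace ℂ V A) := by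
  rw [Module.End.trace_eq_sum_roots_charpoly_of_splits (IsAlgClosed.splits _)]
  refine IsIntegral.multiset_sum fun x hx => ?_
  have h1 : A.HasEigenvalue x := (Module.End.hasEigenvalue_iff_isRoot_charpoly A x).2 (Polynomial.isRoot_of_mem_roots hx)
  obtain ⟨v, hv⟩ := h1.exists_hasEigenvector
  have h2 : (A ^ (k + 1)) v = x ^ (k + 1) • v := hv.pow_apply (k + 1)
  rw [hA, hv.apply_eq_smul] at h2
  have h3 : (x ^ (k + 1) - x) • v = 0 := by rw [sub_smul, h2, sub_self]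
  rcases smul_eq_zero.1 h3 with h4 | h4
  · have h5 : x * (x ^ k - 1) = 0 := by
      rw [← h4]
      ring
    rcases mul_eq_zero.1 h5 with h6 | h6
    · rw [h6]
      exact isIntegral_zero
    · refine IsIntegral.of_pow hk ?_
      rw [sub_eq_zero.1 h6]
      exact isIntegral_one
  · exact absurd h4 hv.2

theorem AVG_idem {R A : Type} [Group R] [Fintype R] [Ring A] [Algebra ℂ A] (F : R → A) (hF : ∀ u v, F (u * v) = F u * F v) :
    ((Fintype.card R : ℂ)⁻¹ • ∑ v, F v) * ((Fintype.card R : ℂ)⁻¹ • ∑ v, F v) = (Fintype.card R : ℂ)⁻¹ • ∑ v, F v := by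
  have h1 : (∑ u, F u) * (∑ v, F v) = (Fintype.card R : ℂ) • ∑ v, F v := by
    rw [Finset.sum_mul]
    have h2 : ∀ u : R, F u * (∑ v, F v) = ∑ v, F v := by
      intro u
      rw [Finset.mul_sum]
      rw [← Equiv.sum_comp (Equiv.mulLeft u) F]
      exact Finset.sum_congr rfl fun v _ => (hF u v).symm
    rw [Finset.sum_congr rfl fun u _ => h2 u, Finset.sum_const, Finset.card_univ, Nat.cast_smul_eq_nsmul]
  have hne : (Fintype.card R : ℂ) ≠ 0 := by exact_mod_cast Fintype.card_ne_zero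
  rw [smul_mul_smul_comm, h1, smul_smul, mul_assoc, inv_mul_cancel₀ hne, mul_one]

theorem AVG : AVG_stmt := by
  classical
  intro G _ _ L R hRL μ hμ hμ1 κ hκ η hη y hy y' hy' hcy hcy'
  obtain ⟨-, V, iV1, iV2, iV3, ρ, -, hρ⟩ := hκ
  obtain ⟨-, W, iW1, iW2, iW3, σ, -, hσ⟩ := hη
  have : Fintype R := Fintype.ofFinite R
  let Θ : Representation ℂ (L × L) (V →ₗ[ℂ] W) :=
    Representation.linHom (ρ.comp (MonoidHom.fst L L)) (σ.comp (MonoidHom.snd L L))
  have hΘ : ∀ a b : L, Θ.character (a, b) = κ ((a : G)⁻¹) * η b := by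
    intro a b
    have h1 : Θ.character (a, b) = ρ.character a⁻¹ * σ.character b :=
      Representation.char_linHom (ρ.comp (MonoidHom.fst L L)) (σ.comp (MonoidHom.snd L L)) (a, b)
    rw [h1, hρ, hσ]
    rfl
  let i : R → L := fun v => ⟨v.1, hRL v.2⟩
  have hi : ∀ u v : R, i (u * v) = i u * i v := fun u v => rfl
  let F : R → Module.End ℂ (V →ₗ[ℂ] W) := fun v => μ v.1 • Θ (i v, i v)
  have hF : ∀ u v, F (u * v) = F u * F v := by
    intro u v
    show μ (u.1 * v.1) • Θ (i (u * v), i (u * v)) = (μ u.1 • Θ (i u, i u)) * (μ v.1 • Θ (i v, i v))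
    rw [smul_mul_smul_comm, ← map_mul, hμ u.1 u.2 v.1 v.2, hi]
    rfl
  let T : Module.End ℂ (V →ₗ[ℂ] W) := Θ (⟨y, hy⟩, ⟨y', hy'⟩)
  have hprod : ∀ v : R, ((i v, i v) : L × L) * (⟨y, hy⟩, ⟨y', hy'⟩) = (⟨y, hy⟩, ⟨y', hy'⟩) * (i v, i v) := by
    intro v
    refine Prod.ext (Subtype.ext ?_) (Subtype.ext ?_)
    · exact hcy v.1 v.2
    · exact hcy' v.1 v.2
  have hT : ∀ v : R, F v * T = T * F v := by
    intro v
    show (μ v.1 • Θ (i v, i v)) * Θ (⟨y, hy⟩, ⟨y', hy'⟩) = Θ (⟨y, hy⟩, ⟨y', hy'⟩) * (μ v.1 • Θ (i v, i v))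
    rw [smul_mul_assoc, mul_smul_comm, ← map_mul, ← map_mul, hprod v]
  have hcard : 0 < Nat.card (L × L) := Nat.card_pos
  have hTk : T ^ Nat.card (L × L) = 1 := by
    show (Θ (⟨y, hy⟩, ⟨y', hy'⟩)) ^ Nat.card (L × L) = 1
    rw [← map_pow, pow_card_eq_one', map_one]
  have hEE := AVG_idem F hF
  generalize hEdef : (Fintype.card R : ℂ)⁻¹ • ∑ v, F v = E at hEE
  have hET : Commute E T := by
    rw [← hEdef]
    show ((Fintype.card R : ℂ)⁻¹ • ∑ v, F v) * T = T * ((Fintype.card R : ℂ)⁻¹ • ∑ v, F v)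
    rw [smul_mul_assoc, mul_smul_comm, Finset.sum_mul, Finset.mul_sum]
    rw [Finset.sum_congr rfl fun v _ => hT v]
  have hA : (E * T) ^ (Nat.card (L × L) + 1) = E * T := by
    rw [hET.mul_pow, pow_succ T, hTk, one_mul]
    have h5 : IsIdempotentElem E := hEE
    rw [h5.pow_succ_eq]
  have hint := AVG_tr (E * T) _ hcard hA
  have hval : LinearMap.trace ℂ (V →ₗ[ℂ] W) (E * T) =
      (Nat.card R : ℂ)⁻¹ * ∑ᶠ v ∈ (R : Set G), μ v * κ (v * y)⁻¹ * η (v * y') := by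
    rw [← finsum_set_coe_eq_finsum_mem (s := (R : Set G)) (f := fun v => μ v * κ (v * y)⁻¹ * η (v * y'))]
    rw [finsum_eq_sum_of_fintype]
    rw [← hEdef, smul_mul_assoc, map_smul, smul_eq_mul, Nat.card_eq_fintype_card, Finset.sum_mul, map_sum]
    congr 1
    refine Finset.sum_congr rfl fun v _ => ?_
    show LinearMap.trace ℂ (V →ₗ[ℂ] W) ((μ v.1 • Θ (i v, i v)) * Θ (⟨y, hy⟩, ⟨y', hy'⟩)) = _
    rw [smul_mul_assoc, ← map_mul, map_smul, smul_eq_mul, mul_assoc]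
    congr 1
    exact hΘ (i v * ⟨y, hy⟩) (i v * ⟨y', hy'⟩)
  rw [← hval]
  exact hint

end Pool.Agent.ND
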