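import Pool.Agent.helper37.ND.SpecC

set_option autoImplicit false

namespace Pool.Agent.ND

/-- An integer vector of norm `2` and degree `0`. -/
theorem KCH_two {Ψ : Type} [Fintype Ψ] [DecidableEq Ψ] (w x : Ψ → ℤ) (hw : ∀ ψ, 0 < w ψ)
    (h0 : ∑ ψ, w ψ * x ψ = 0) (h2 : ∑ ψ, x ψ * x ψ = 2) :
    ∃ b c, b ≠ c ∧ ∀ ψ, x ψ = (if ψ = b then 1 else 0) - (if ψ = c then 1 else 0) := by
  have hz : (∀ ψ, w ψ * x ψ = 0) → False := by
    intro h1
    have h3 : ∑ ψ, x ψ * x ψ = 0 := Finset.sum_eq_zero fun ψ _ => by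
      rcases mul_eq_zero.1 (h1 ψ) with h4 | h4
      · exact absurd h4 (hw ψ).ne'
      · rw [h4, zero_mul]
    omega
  have hb : ∃ b, 0 < x b := by
    by_contra h
    push Not at h
    refine hz fun ψ => (Finset.sum_eq_zero_iff_of_nonpos fun ψ _ => ?_).1 h0 ψ (Finset.mem_univ ψ)
    exact mul_nonpos_of_nonneg_of_nonpos (hw ψ).le (h ψ)
  have hc : ∃ c, x c < 0 := by
    by_contra h
    push Not at h
    refine hz fun ψ => (Finset.sum_eq_zero_iff_of_nonneg fun ψ _ => ?_).1 h0 ψ (Finset.mem_univ ψ)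
    exact mul_nonneg (hw ψ).le (h ψ)
  obtain ⟨b, hb⟩ := hb
  obtain ⟨c, hc⟩ := hc
  have hbc : b ≠ c := by
    rintro rfl
    omega
  refine ⟨b, c, hbc, ?_⟩
  rw [← Finset.add_sum_erase _ _ (Finset.mem_univ b),
    ← Finset.add_sum_erase _ _ (Finset.mem_erase.2 ⟨hbc.symm, Finset.mem_univ c⟩)] at h2
  have hnn : 0 ≤ ∑ ψ ∈ (Finset.univ.erase b).erase c, x ψ * x ψ :=
    Finset.sum_nonneg fun ψ _ => mul_self_nonneg _
  have e1 : 1 ≤ x b * x b := by nlinarith
  have e2 : 1 ≤ x c * x c := by nlinarith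
  have hb1 : x b = 1 := le_antisymm (by nlinarith) (by omega)
  have hc1 : x c = -1 := le_antisymm (by omega) (by nlinarith)
  have hr : ∑ ψ ∈ (Finset.univ.erase b).erase c, x ψ * x ψ = 0 := by
    linarith
  intro ψ
  by_cases h1 : ψ = b
  · subst h1
    rw [if_pos rfl, if_neg hbc, hb1, sub_zero]
  · by_cases h3 : ψ = c
    · subst h3
      rw [if_neg h1, if_pos rfl, hc1, zero_sub]
    · rw [if_neg h1, if_neg h3, sub_zero]
      have := (Finset.sum_eq_zero_iff_of_nonneg fun ψ _ => mul_self_nonneg (x ψ)).1 hr ψ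
        (Finset.mem_erase.2 ⟨h3, Finset.mem_erase.2 ⟨h1, Finset.mem_univ _⟩⟩)
      exact mul_self_eq_zero.1 this

/-- One block. -/
theorem KCH_block {Ψ B : Type} [Fintype Ψ] [DecidableEq Ψ] [Fintype B] [DecidableEq B] (w : Ψ → ℤ)
    (hw : ∀ ψ, 0 < w ψ) (u : B → Ψ → ℤ) (s : ℤ) (h0 : ∀ j, ∑ ψ, w ψ * u j ψ = 0)
    (hg : ∀ j k, ∑ ψ, u j ψ * u k ψ = s + if j = k then 1 else 0) (hB : 1 < Fintype.card B) :
    ∃ (Y : Ψ → ℤ) (ε : ℤ) (a : B → Ψ), (ε = 1 ∨ ε = -1) ∧
      ∀ j ψ, u j ψ = Y ψ - ε * if ψ = a j then 1 else 0 := by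
  obtain ⟨j₀⟩ : Nonempty B := Fintype.card_pos_iff.1 (by omega)
  obtain ⟨j₁, hj₁⟩ := Fintype.exists_ne_of_one_lt_card hB j₀
  have key : ∀ j, j ≠ j₀ → ∃ b c, b ≠ c ∧
      ∀ ψ, u j ψ - u j₀ ψ = (if ψ = b then 1 else 0) - (if ψ = c then 1 else 0) := by
    intro j hj
    refine KCH_two w (fun ψ => u j ψ - u j₀ ψ) hw ?_ ?_
    · have : ∀ ψ, w ψ * (u j ψ - u j₀ ψ) = w ψ * u j ψ - w ψ * u j₀ ψ := fun ψ => by ring
      rw [Finset.sum_congr rfl fun ψ _ => this ψ, Finset.sum_sub_distrib, h0, h0, sub_zero]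
    · have : ∀ ψ, (u j ψ - u j₀ ψ) * (u j ψ - u j₀ ψ) =
          u j ψ * u j ψ - 2 * (u j ψ * u j₀ ψ) + u j₀ ψ * u j₀ ψ := fun ψ => by ring
      rw [Finset.sum_congr rfl fun ψ _ => this ψ, Finset.sum_add_distrib, Finset.sum_sub_distrib,
        ← Finset.mul_sum, hg, hg, hg, if_pos rfl, if_neg hj, if_pos rfl]
      ring
  obtain ⟨b₁, c₁, -, -⟩ := key j₁ hj₁
  have key' : ∀ j, ∃ b c, j ≠ j₀ → b ≠ c ∧
      ∀ ψ, u j ψ - u j₀ ψ = (if ψ = b then 1 else 0) - (if ψ = c then 1 else 0) := by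
    intro j
    by_cases hj : j = j₀
    · exact ⟨b₁, c₁, fun h => absurd hj h⟩
    · obtain ⟨b, c, h⟩ := key j hj
      exact ⟨b, c, fun _ => h⟩
  choose b c hbc using key'
  have hpair : ∀ j k, j ≠ j₀ → k ≠ j₀ → j ≠ k → b j = b k ∨ c j = c k := by
    intro j k hj hk hjk
    have e1 : ∑ ψ, (u j ψ - u j₀ ψ) * (u k ψ - u j₀ ψ) = 1 := by
      have : ∀ ψ, (u j ψ - u j₀ ψ) * (u k ψ - u j₀ ψ) =
          u j ψ * u k ψ - u j ψ * u j₀ ψ - u j₀ ψ * u k ψ + u j₀ ψ * u j₀ ψ := fun ψ => by ring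
      rw [Finset.sum_congr rfl fun ψ _ => this ψ, Finset.sum_add_distrib, Finset.sum_sub_distrib,
        Finset.sum_sub_distrib, hg, hg, hg, hg, if_neg hjk, if_neg hj, if_neg (Ne.symm hk), if_pos rfl]
      ring
    have e2 : ∑ ψ, (u j ψ - u j₀ ψ) * (u k ψ - u j₀ ψ) =
        (if b j = b k then 1 else 0) - (if b j = c k then 1 else 0) - (if c j = b k then 1 else 0) +
          (if c j = c k then 1 else 0) := by
      have : ∀ ψ, (u j ψ - u j₀ ψ) * (u k ψ - u j₀ ψ) =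
          (if ψ = b j then (if b j = b k then 1 else 0) else 0) - (if ψ = b j then (if b j = c k then 1 else 0) else 0)
            - (if ψ = c j then (if c j = b k then 1 else 0) else 0) + (if ψ = c j then (if c j = c k then 1 else 0) else 0) := by
        intro ψ
        rw [(hbc j hj).2 ψ, (hbc k hk).2 ψ]
        by_cases h1 : ψ = b j
        · by_cases h2 : ψ = c j
          · exact absurd (h1.symm.trans h2) (hbc j hj).1
          · rw [if_pos h1, if_neg h2, if_pos h1, if_pos h1, if_neg h2, if_neg h2, ← h1]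
            ring
        · by_cases h2 : ψ = c j
          · rw [if_neg h1, if_pos h2, if_neg h1, if_neg h1, if_pos h2, if_pos h2, ← h2]
            ring
          · rw [if_neg h1, if_neg h2, if_neg h1, if_neg h1, if_neg h2, if_neg h2]
            ring
      rw [Finset.sum_congr rfl fun ψ _ => this ψ, Finset.sum_add_distrib, Finset.sum_sub_distrib,
        Finset.sum_sub_distrib]
      simp only [Finset.sum_ite_eq', Finset.mem_univ, if_true]
    by_contra hcon
    push Not at hcon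
    rw [e2, if_neg hcon.1, if_neg hcon.2] at e1
    split_ifs at e1 <;> omega
  have hdich : (∀ k, k ≠ j₀ → b k = b j₁) ∨ (∀ k, k ≠ j₀ → c k = c j₁) := by
    by_contra hcon
    push Not at hcon
    obtain ⟨⟨k, hk, hbk⟩, ⟨l, hl, hcl⟩⟩ := hcon
    have h1 : k ≠ j₁ := fun h => hbk (by rw [h])
    have h2 : l ≠ j₁ := fun h => hcl (by rw [h])
    have h3 := (hpair k j₁ hk hj₁ h1).resolve_left hbk
    have h4 := (hpair l j₁ hl hj₁ h2).resolve_right hcl
    have h5 : k ≠ l := fun h => hbk (by rw [h, h4])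
    rcases hpair k l hk hl h5 with h | h
    · exact hbk (h.trans h4)
    · exact hcl (h.symm.trans h3)
  rcases hdich with h | h
  · refine ⟨fun ψ => u j₀ ψ + (if ψ = b j₁ then 1 else 0), 1, fun j => if j = j₀ then b j₁ else c j, Or.inl rfl, ?_⟩
    intro j ψ
    by_cases hj : j = j₀
    · simp only [hj, if_true]
      ring
    · simp only [if_neg hj]
      have := (hbc j hj).2 ψ
      rw [h j hj] at this
      linarith
  · refine ⟨fun ψ => u j₀ ψ - (if ψ = c j₁ then 1 else 0), -1, fun j => if j = j₀ then c j₁ else b j, Or.inr rfl, ?_⟩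
    intro j ψ
    by_cases hj : j = j₀
    · simp only [hj, if_true]
      ring
    · simp only [if_neg hj]
      have := (hbc j hj).2 ψ
      rw [h j hj] at this
      linarith

/-- A sum over the image of an injective map. -/
theorem KCH_inj {Ψ B : Type} [Fintype Ψ] [DecidableEq Ψ] [Fintype B] (a : B → Ψ) (ha : Function.Injective a)
    (g : Ψ → ℤ) (hg : ∀ ψ, 0 ≤ g ψ) : ∑ k, g (a k) ≤ ∑ ψ, g ψ := by
  rw [← Finset.sum_image (s := Finset.univ) (g := a) (f := g) fun x _ y _ h => ha h]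
  exact Finset.sum_le_sum_of_subset_of_nonneg (Finset.subset_univ _) fun ψ _ _ => hg ψ

theorem KCH_sq {Ψ : Type} [Fintype Ψ] [DecidableEq Ψ] (Y Y' : Ψ → ℤ) (ε ε' : ℤ) (x x' : Ψ) :
    ∑ ψ, (Y ψ - ε * if ψ = x then 1 else 0) * (Y' ψ - ε' * if ψ = x' then 1 else 0) =
      ∑ ψ, Y ψ * Y' ψ - ε' * Y x' - ε * Y' x + ε * ε' * if x = x' then 1 else 0 := by
  have : ∀ ψ, (Y ψ - ε * if ψ = x then 1 else 0) * (Y' ψ - ε' * if ψ = x' then 1 else 0) =
      Y ψ * Y' ψ - (if ψ = x' then ε' * Y x' else 0) - (if ψ = x then ε * Y' x else 0) +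
        (if ψ = x then ε * ε' * (if x = x' then 1 else 0) else 0) := by
    intro ψ
    by_cases h1 : ψ = x
    · by_cases h2 : ψ = x'
      · rw [if_pos h1, if_pos h2, if_pos h2, if_pos h1, if_pos h1, if_pos (h1.symm.trans h2), ← h1, ← h2]
        ring
      · rw [if_pos h1, if_neg h2, if_neg h2, if_pos h1, if_pos h1, if_neg fun h => h2 (h1.trans h), ← h1]
        ring
    · by_cases h2 : ψ = x'
      · rw [if_neg h1, if_pos h2, if_pos h2, if_neg h1, if_neg h1, ← h2]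
        ring
      · rw [if_neg h1, if_neg h2, if_neg h2, if_neg h1, if_neg h1]
        ring
  rw [Finset.sum_congr rfl fun ψ _ => this ψ, Finset.sum_add_distrib, Finset.sum_sub_distrib,
    Finset.sum_sub_distrib]
  simp only [Finset.sum_ite_eq', Finset.mem_univ, if_true]

/-- The vector `Y` of a block. -/
theorem KCH_zero {Ψ B : Type} [Fintype Ψ] [DecidableEq Ψ] [Fintype B] [DecidableEq B] (u : B → Ψ → ℤ) (s : ℤ)
    (hs : 1 ≤ s) (hg : ∀ j k, ∑ ψ, u j ψ * u k ψ = s + if j = k then 1 else 0) (hB : s + 3 ≤ Fintype.card B)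
    (Y : Ψ → ℤ) (ε : ℤ) (a : B → Ψ) (hε : ε = 1 ∨ ε = -1) (h : ∀ j ψ, u j ψ = Y ψ - ε * if ψ = a j then 1 else 0) :
    Function.Injective a ∧ (∀ j, Y (a j) = 0) ∧ ∑ ψ, Y ψ * Y ψ = s := by
  have hinj : Function.Injective a := by
    intro j k hjk
    by_contra hne
    have h1 : ∀ ψ, u j ψ = u k ψ := fun ψ => by rw [h, h, hjk]
    have h2 := hg j k
    rw [if_neg hne, Finset.sum_congr rfl fun ψ _ => by rw [← h1 ψ], hg j j, if_pos rfl] at h2
    omega
  have hsum : ∀ j, ∑ ψ, Y ψ * Y ψ = s + 2 * (ε * Y (a j)) := by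
    intro j
    have h1 := hg j j
    rw [if_pos rfl, Finset.sum_congr rfl fun ψ _ => by rw [h j ψ], KCH_sq, if_pos rfl] at h1
    have h2 : ε * ε = 1 := by
      rcases hε with h' | h' <;> rw [h'] <;> rfl
    linarith
  have hle : ∑ k, Y (a k) * Y (a k) ≤ ∑ ψ, Y ψ * Y ψ :=
    KCH_inj a hinj (fun ψ => Y ψ * Y ψ) fun ψ => mul_self_nonneg _
  have hzero : ∀ j, Y (a j) = 0 := by
    intro j
    have h1 : ∀ k, Y (a k) = Y (a j) := by
      intro k
      have h2 := (hsum k).symm.trans (hsum j)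
      rcases hε with h' | h' <;> rw [h'] at h2 <;> omega
    set y := Y (a j) with hy
    rw [Finset.sum_congr rfl fun k _ => by rw [h1 k], Finset.sum_const, Finset.card_univ, nsmul_eq_mul, hsum j,
      ← hy] at hle
    by_contra hne
    have h3 : 1 ≤ y * y := by
      rcases lt_or_gt_of_ne hne with h4 | h4 <;> nlinarith
    have h5 : ε * y ≤ y * y := by
      rcases hε with h' | h' <;> rw [h']
      · rcases lt_or_gt_of_ne hne with h4 | h4 <;> nlinarith
      · rcases lt_or_gt_of_ne hne with h4 | h4 <;> nlinarith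
    have h6 : (s + 3) * (y * y) ≤ (Fintype.card B : ℤ) * (y * y) :=
      mul_le_mul_of_nonneg_right hB (by linarith)
    nlinarith
  refine ⟨hinj, hzero, ?_⟩
  obtain ⟨j⟩ : Nonempty B := Fintype.card_pos_iff.1 (by omega)
  rw [hsum j, hzero j]
  ring

/-- A good index. -/
theorem KCH_ex {Ψ B : Type} [Fintype Ψ] [DecidableEq Ψ] [Fintype B] (a : B → Ψ)
    (ha : Function.Injective a) (Y : Ψ → ℤ) (s : ℤ) (hY : ∑ ψ, Y ψ * Y ψ = s) (hB : s + 3 ≤ Fintype.card B) (c : Ψ) :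
    ∃ k, Y (a k) = 0 ∧ a k ≠ c := by
  by_contra hcon
  push Not at hcon
  have h1 : ∀ k, 1 ≤ Y (a k) * Y (a k) + (if a k = c then 1 else 0) := by
    intro k
    by_cases h : Y (a k) = 0
    · rw [h, if_pos (hcon k h)]
      omega
    · have h3 : 1 ≤ Y (a k) * Y (a k) := by
        rcases lt_or_gt_of_ne h with h4 | h4 <;> nlinarith
      split_ifs <;> omega
  have h2 : (Fintype.card B : ℤ) ≤ ∑ k, (Y (a k) * Y (a k) + (if a k = c then 1 else 0)) := by
    have := Finset.sum_le_sum (s := (Finset.univ : Finset B)) fun k _ => h1 k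
    rwa [Finset.sum_const, Finset.card_univ, nsmul_eq_mul, mul_one] at this
  rw [Finset.sum_add_distrib] at h2
  have h3 : ∑ k, Y (a k) * Y (a k) ≤ ∑ ψ, Y ψ * Y ψ :=
    KCH_inj a ha (fun ψ => Y ψ * Y ψ) fun ψ => mul_self_nonneg _
  have h4 : ∑ k, (if a k = c then (1 : ℤ) else 0) ≤ ∑ ψ, (if ψ = c then (1 : ℤ) else 0) :=
    KCH_inj a ha (fun ψ => if ψ = c then (1 : ℤ) else 0) fun ψ => by
      split_ifs <;> omega
  rw [Finset.sum_ite_eq', if_pos (Finset.mem_univ c)] at h4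
  linarith

theorem KCH : KCH_stmt := by
  classical
  intro Ψ I J _ _ _ f s v w hw hs h0 hg hB
  have := Fintype.ofFinite Ψ
  have := Fintype.ofFinite I
  have := Fintype.ofFinite J
  simp only [finsum_eq_sum_of_fintype] at h0 hg ⊢
  have hBc : ∀ i i', s i' + 3 ≤ (Fintype.card {j // f j = i} : ℤ) := by
    intro i i'
    have := hB i i'
    rwa [Nat.card_eq_fintype_card] at this
  have hgB : ∀ i (j k : {j // f j = i}), ∑ ψ, v j.1 ψ * v k.1 ψ = s i + if j = k then 1 else 0 := by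
    intro i j k
    rw [hg, if_pos (j.2.trans k.2.symm), j.2]
    congr 1
    by_cases h : j = k
    · rw [if_pos h, if_pos (congrArg Subtype.val h)]
    · rw [if_neg h, if_neg fun h' => h (Subtype.ext h')]
  have hblock : ∀ i, ∃ (Y : Ψ → ℤ) (ε : ℤ) (a : {j // f j = i} → Ψ), (ε = 1 ∨ ε = -1) ∧
      ∀ j ψ, v j.1 ψ = Y ψ - ε * if ψ = a j then 1 else 0 := by
    intro i
    refine KCH_block w hw (fun j : {j // f j = i} => v j.1) (s i) (fun j => h0 j.1) (hgB i) ?_
    have h1 := hBc i i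
    have h2 := hs i
    omega
  choose Y ε a hε hv using hblock
  have hz : ∀ i, Function.Injective (a i) ∧ (∀ j, Y i (a i j) = 0) ∧ ∑ ψ, Y i ψ * Y i ψ = s i := fun i =>
    KCH_zero (fun j : {j // f j = i} => v j.1) (s i) (hs i) (hgB i) (hBc i i) (Y i) (ε i) (a i) (hε i) (hv i)
  have hne : ∀ i i', i ≠ i' → ∀ (j : {j // f j = i}) (k : {j // f j = i'}),
      0 = ∑ ψ, Y i ψ * Y i' ψ - ε i' * Y i (a i' k) - ε i * Y i' (a i j) +
        ε i * ε i' * if a i j = a i' k then 1 else 0 := by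
    intro i i' hii j k
    have h1 := hg j.1 k.1
    rw [if_neg (by rw [j.2, k.2]; exact hii), Finset.sum_congr rfl fun ψ _ => by rw [hv i j ψ, hv i' k ψ],
      KCH_sq] at h1
    exact h1.symm
  have hYY : ∀ i i', i ≠ i' → ∑ ψ, Y i ψ * Y i' ψ = 0 := by
    intro i i' hii
    obtain ⟨ψ₀⟩ : Nonempty Ψ := by
      by_contra hcon
      rw [not_nonempty_iff] at hcon
      have h1 := (hz i).2.2
      rw [Finset.univ_eq_empty, Finset.sum_empty] at h1
      have h2 := hs i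
      omega
    obtain ⟨j, hj1, -⟩ := KCH_ex (a i) (hz i).1 (Y i') (s i') (hz i').2.2 (hBc i i') ψ₀
    obtain ⟨k, hk1, hk2⟩ := KCH_ex (a i') (hz i').1 (Y i) (s i) (hz i).2.2 (hBc i' i) (a i j)
    have h1 := hne i i' hii j k
    rw [hj1, hk1, if_neg (Ne.symm hk2)] at h1
    linarith
  have hεne : ∀ i, ε i ≠ 0 := by
    intro i
    rcases hε i with h | h <;> rw [h] <;> decide
  have hYa : ∀ i i' (k : {j // f j = i'}), Y i (a i' k) = 0 := by
    intro i i' k
    by_cases hii : i = i'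
    · subst hii
      exact (hz i).2.1 k
    · obtain ⟨j, hj1, hj2⟩ := KCH_ex (a i) (hz i).1 (Y i') (s i') (hz i').2.2 (hBc i i') (a i' k)
      have h1 := hne i i' hii j k
      rw [hYY i i' hii, hj1, if_neg hj2] at h1
      have h2 : ε i' * Y i (a i' k) = 0 := by linarith
      exact (mul_eq_zero.1 h2).resolve_left (hεne i')
  refine ⟨Y, ε, fun j => a (f j) ⟨j, rfl⟩, hε, ?_, fun j ψ => hv (f j) ⟨j, rfl⟩ ψ, fun i j => hYa i (f j) ⟨j, rfl⟩, ?_⟩
  · intro j k hjk
    change a (f j) ⟨j, rfl⟩ = a (f k) ⟨k, rfl⟩ at hjk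
    by_cases hf : f j = f k
    · have h1 : ∀ ψ, v j ψ = v k ψ := by
        intro ψ
        rw [hv (f j) ⟨j, rfl⟩ ψ, hv (f k) ⟨k, rfl⟩ ψ, hjk, hf]
      by_contra hne'
      have h2 := hg j k
      have h3 := hg j j
      rw [if_pos hf, if_neg hne', Finset.sum_congr rfl fun ψ _ => by rw [← h1 ψ], h3, if_pos rfl, if_pos rfl] at h2
      omega
    · exfalso
      have h1 := hne (f j) (f k) hf ⟨j, rfl⟩ ⟨k, rfl⟩
      rw [hYY _ _ hf, hYa, hYa, if_pos hjk] at h1
      have h2 : ε (f j) * ε (f k) = 0 := by linarith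
      rcases mul_eq_zero.1 h2 with h3 | h3
      · exact hεne _ h3
      · exact hεne _ h3
  · intro i i'
    by_cases hii : i = i'
    · subst hii
      rw [if_pos rfl]
      exact (hz i).2.2
    · rw [if_neg hii]
      exact hYY i i' hii

end Pool.Agent.ND
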