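import Pool.Agent.helper37.ND.Spec

set_option autoImplicit false

namespace Pool.Agent.ND

open Pool.Agent.helper58.DC Pool.Agent.DI Pool.Agent.GR Pool.Agent.OB Pool.Agent.DR Pool.Agent.FI Pool.Agent.FI3 Pool.Agent.FI4 Pool.Agent.FI4I Pool.Agent.LE Pool.Agent.L5 Pool.Agent.NAB

theorem ZGP_uni {G : Type} [Group G] [Finite G] (P Q : Subgroup G) (g : G) (hP : P ≤ Subgroup.zpowers g)
    (hQ : Q ≤ Subgroup.zpowers g) (h : Nat.card P = Nat.card Q) : P = Q := by
  classical
  have := Fintype.ofFinite G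
  have hn : 0 < Nat.card P := Nat.card_pos
  set n : ℕ := Nat.card P with hndef
  set S : Set G := {y | y ∈ Subgroup.zpowers g ∧ y ^ n = 1} with hSdef
  have hS : S.ncard ≤ n := by
    have e1 : S = Subtype.val '' {a : Subgroup.zpowers g | a ^ n = 1} := by
      ext y
      constructor
      · rintro ⟨h1, h2⟩
        exact ⟨⟨y, h1⟩, Subtype.ext h2, rfl⟩
      · rintro ⟨a, ha, rfl⟩
        exact ⟨a.2, congrArg Subtype.val ha⟩
    rw [e1, Set.ncard_image_of_injective _ Subtype.val_injective]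
    have e2 := IsCyclic.card_pow_eq_one_le (α := Subgroup.zpowers g) hn
    rw [Set.ncard_eq_toFinset_card']
    refine le_trans (le_of_eq ?_) e2
    congr 1
    ext a
    simp
  have hPS : (P : Set G) ⊆ S := by
    intro y hy
    refine ⟨hP hy, ?_⟩
    have h1 : (⟨y, hy⟩ : P) ^ Nat.card P = 1 := pow_card_eq_one'
    exact congrArg Subtype.val h1
  have hQS : (Q : Set G) ⊆ S := by
    intro y hy
    refine ⟨hQ hy, ?_⟩
    have h1 : (⟨y, hy⟩ : Q) ^ Nat.card Q = 1 := pow_card_eq_one'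
    rw [h]
    exact congrArg Subtype.val h1
  have cP : (P : Set G).ncard = n := rfl
  have cQ : (Q : Set G).ncard = n := h.symm
  have e1 : (P : Set G) = S := Set.eq_of_subset_of_ncard_le hPS (by rw [cP]; exact hS) (Set.toFinite S)
  have e2 : (Q : Set G) = S := Set.eq_of_subset_of_ncard_le hQS (by rw [cQ]; exact hS) (Set.toFinite S)
  exact SetLike.coe_injective (e1.trans e2.symm)

theorem ZGP_ord {G : Type} [Group G] {p e j : ℕ} (hp : p.Prime) {z : G} (hj : j ≤ e)
    (hz : orderOf z = p ^ e) : orderOf (z ^ p ^ (e - j)) = p ^ j := by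
  have hpe : p ^ (e - j) ≠ 0 := (pow_pos hp.pos _).ne'
  have hd : p ^ (e - j) ∣ orderOf z := by
    rw [hz]
    exact pow_dvd_pow p (by omega)
  rw [orderOf_pow_of_dvd hpe hd, hz]
  have h2 : p ^ e = p ^ (e - j) * p ^ j := by
    rw [← pow_add]
    congr 1
    omega
  rw [h2, Nat.mul_div_cancel_left _ (pow_pos hp.pos _)]

theorem ZGP_mem {G : Type} [Group G] {p e m j : ℕ} (z : G) (hj : e - (m + 3) ≤ j) : z ^ p ^ j ∈ Zg p e m z := by
  refine ⟨((p ^ (j - (e - (m + 3))) : ℕ) : ℤ), ?_⟩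
  change (z ^ p ^ (e - (m + 3))) ^ ((p ^ (j - (e - (m + 3))) : ℕ) : ℤ) = z ^ p ^ j
  rw [zpow_natCast, ← pow_mul, ← pow_add]
  congr 2
  omega

theorem ZGP_comm {G : Type} [Group G] (a : G) : Subgroup.centralizer ({a} : Set G) ≤ cz (Subgroup.zpowers a) := by
  intro g hg
  rw [Subgroup.mem_centralizer_iff] at hg ⊢
  have h2 : Commute a g := hg a rfl
  intro h hh
  obtain ⟨j, rfl⟩ := Subgroup.mem_zpowers_iff.1 hh
  exact h2.zpow_left j

theorem ZGP_nz {G : Type} [Group G] (D : Subgroup G) : cz D ≤ nz D := by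
  intro x hx
  rw [Subgroup.mem_centralizer_iff] at hx
  rw [Subgroup.mem_normalizer_iff]
  intro d
  constructor
  · intro hd
    have h1 : x * d * x⁻¹ = d := by
      rw [← hx d hd]
      group
    rw [h1]
    exact hd
  · intro hd
    have h1 := hx _ hd
    have h2 : x * d * x⁻¹ = d := by
      have h3 : x * d = x * (x * d * x⁻¹) := by
        rw [← h1]
        group
      have h4 : d = x * d * x⁻¹ := mul_left_cancel h3
      exact h4.symm
    rwa [h2] at hd

theorem ZGP_pow {G : Type} [Group G] {p : ℕ} (hp : p.Prime) {z x : G} (hz : PEl p z) (hx : PReg p x)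
    (hzx : z * x = x * z) : ∃ n : ℕ, (z * x) ^ n = z := by
  obtain ⟨k, hk⟩ := hz
  have hc : Nat.Coprime (orderOf z) (orderOf x) := by
    have h1 : orderOf z ∣ p ^ k := orderOf_dvd_of_pow_eq_one hk
    have h2 : Nat.Coprime (p ^ k) (orderOf x) := Nat.Coprime.pow_left k ((Nat.Prime.coprime_iff_not_dvd hp).2 hx)
    exact Nat.Coprime.coprime_dvd_left h1 h2
  have hcomm : Commute z x := hzx
  obtain ⟨N, hN1, hN2⟩ := Nat.chineseRemainder hc 1 0
  refine ⟨N, ?_⟩
  rw [hcomm.mul_pow]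
  have h1 : z ^ N = z ^ 1 := pow_eq_pow_iff_modEq.2 hN1
  have h2 : x ^ N = x ^ 0 := pow_eq_pow_iff_modEq.2 hN2
  rw [h1, h2, pow_one, pow_zero, mul_one]

theorem ZGP : ZGP_stmt := by
  intro p e m hp hme G _ _ z hz hzo
  have hcard : Nat.card (Zg p e m z) = p ^ (m + 3) := by
    unfold Zg
    rw [Nat.card_zpowers]
    exact ZGP_ord hp hme hzo
  have hEle : ∀ z' : G, Eg p e z' ≤ Zg p e m z' := by
    intro z'
    unfold Eg
    rw [Subgroup.zpowers_le]
    exact ZGP_mem z' (by omega)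
  have hEcard : ∀ z' : G, orderOf z' = p ^ e → Nat.card (Eg p e z') = p ^ 1 := by
    intro z' hz'
    unfold Eg
    rw [Nat.card_zpowers]
    exact ZGP_ord hp (by omega) hz'
  have hCz : Subgroup.centralizer ({z} : Set G) ≤ cz (Zg p e m z) := by
    refine le_trans ?_ (ZGP_comm _)
    intro g hg
    rw [Subgroup.mem_centralizer_iff] at hg ⊢
    rintro _ rfl
    have h2 : Commute z g := hg z rfl
    exact h2.pow_left _
  have hcen : ∀ g : G, Zg p e m z ≤ Subgroup.zpowers g → Subgroup.centralizer ({g} : Set G) ≤ cz (Zg p e m z) :=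
    fun g hg => (ZGP_comm g).trans (Subgroup.centralizer_le hg)
  refine ⟨?_, ?_, ⟨hcard, IsPGroup.of_card hcard⟩, ⟨hEle z, ?_⟩, ⟨hCz, ZGP_nz _, ?_, Subgroup.centralizer_le (hEle z), ?_⟩,
    ⟨?_, hcen⟩, ⟨ZGP_mem z (by omega), ZGP_ord hp (by omega) hzo⟩, ZGP_uni⟩
  · intro g
    unfold Zg cjS
    rw [MonoidHom.map_zpowers, conj_pow]
    rfl
  · intro L hL
    unfold Zg
    rw [Subgroup.zpowers_le]
    exact L.pow_mem hL _
  · intro z' _ hz'o hZ
    refine ZGP_uni _ _ (z ^ p ^ (e - (m + 3))) ?_ (hEle z) ?_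
    · have h1 := hEle z'
      rw [hZ] at h1
      exact h1
    · rw [hEcard z' hz'o, hEcard z hzo]
  · intro g hg
    have h1 : cjS g (Eg p e z) = Eg p e z := by
      refine ZGP_uni _ _ (z ^ p ^ (e - (m + 3))) ?_ (hEle z) ?_
      · intro x hx
        rw [mem_cjS] at hx
        have h2 := hEle z hx
        have h3 := (Subgroup.mem_normalizer_iff.1 hg (g⁻¹ * x * g)).1 h2
        have h4 : g * (g⁻¹ * x * g) * g⁻¹ = x := by group
        rw [h4] at h3
        exact h3
      · unfold cjS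
        exact (Nat.card_congr ((Eg p e z).equivMapOfInjective _ (MulAut.conj g).injective).toEquiv).symm
    rw [Subgroup.mem_normalizer_iff]
    intro x
    have h2 : g * x * g⁻¹ ∈ cjS g (Eg p e z) ↔ x ∈ Eg p e z := by
      rw [mem_cjS]
      have h3 : g⁻¹ * (g * x * g⁻¹) * g = x := by group
      rw [h3]
    rw [h1] at h2
    exact h2.symm
  · refine le_trans ?_ (ZGP_comm _)
    intro g hg
    rw [Subgroup.mem_centralizer_iff]
    rintro _ rfl
    obtain ⟨j, rfl⟩ := Subgroup.mem_zpowers_iff.1 hg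
    exact (Commute.refl _).zpow_right j
  · intro x hx hzx
    obtain ⟨n, hn⟩ := ZGP_pow hp hz hx hzx
    refine hcen _ ?_
    unfold Zg
    rw [Subgroup.zpowers_le]
    refine Subgroup.pow_mem _ ?_ _
    have h1 := Subgroup.pow_mem (Subgroup.zpowers (z * x)) (Subgroup.mem_zpowers (z * x)) n
    rwa [hn] at h1

end Pool.Agent.ND
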